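import Pool.Agent.H178Z.AvoidProof

open Pool.Agent.H178Z.Avoid

/-- For every `n ≥ 1` and every real `β` with `⌊n/4⌋ + 1 ≤ β n` there is a `β`-sparse list
assignment for `K_{n,n}` that no proper `n`-edge colouring avoids. -/
theorem Pool.Agent.Results.MP_ba4857_co.AQuarterBarrier.result
    (n : ℕ) (hn : 1 ≤ n) (β : ℝ) (hβ : ((n / 4 + 1 : ℕ) : ℝ) ≤ β * n) :
    ∃ L : ListAssignment n, Sparse β L ∧ ¬ Avoidable L :=
  unavoidable n hn β hβ
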